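import Mathlib

set_option autoImplicit false
set_option linter.unusedSectionVars false

namespace Pool.Agent.H.MP_fed0c4_co

open Equiv Equiv.Perm

section ev
variable {Δ : Type} [Group Δ]

def ev (y : Fin 3 → Δ) (w : List (Fin 3)) : Δ := (w.map y).prod

@[simp] lemma ev_nil (y : Fin 3 → Δ) : ev y [] = 1 := rfl
@[simp] lemma ev_cons (y : Fin 3 → Δ) (k : Fin 3) (w : List (Fin 3)) :
    ev y (k :: w) = y k * ev y w := by simp [ev]
@[simp] lemma ev_append (y : Fin 3 → Δ) (p q : List (Fin 3)) :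
    ev y (p ++ q) = ev y p * ev y q := by simp [ev]

lemma ev_rev {y : Fin 3 → Δ} (h : ∀ k, y k * y k = 1) (w : List (Fin 3)) :
    ev y w.reverse = (ev y w)⁻¹ := by
  induction w with
  | nil => simp
  | cons k w ih => simp [ih, inv_eq_of_mul_eq_one_left (h k)]

def tw : ℕ → List (Fin 3)
  | 0 => []
  | n + 1 => 1 :: 0 :: tw n

@[simp] lemma tw_len (n : ℕ) : (tw n).length = 2 * n := by
  induction n with
  | zero => rfl
  | succ n ih => simp [tw, ih]; ring

@[simp] lemma ev_tw (y : Fin 3 → Δ) (n : ℕ) : ev y (tw n) = (y 1 * y 0) ^ n := by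
  induction n with
  | zero => simp [tw]
  | succ n ih => simp [tw, ih, pow_succ', mul_assoc]

def W : List Bool → List (Fin 3)
  | [] => []
  | e :: es => (if e then [2] else []) ++ 1 :: 0 :: W es

lemma W_len (es : List Bool) : (W es).length ≤ 3 * es.length := by
  induction es with
  | nil => simp [W]
  | cons e es ih => cases e <;> simp [W] <;> omega

def R {P : Type} (ρ : P → Δ) (T : Δ) : ∀ j : ℕ, (Fin j → P) → Δ
  | 0, _ => 1
  | j + 1, f => ρ (f 0) * T * R ρ T j (Fin.tail f) * T⁻¹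

lemma R_comm {P : Type} {ρ : P → Δ} {T : Δ} {J : ℕ} {g : Δ}
    (h : ∀ i, 1 ≤ i → i ≤ J → ∀ b, Commute g (T ^ i * ρ b * (T ^ i)⁻¹)) :
    ∀ j i f, 1 ≤ i → i + j ≤ J + 1 → Commute g (T ^ i * R ρ T j f * (T ^ i)⁻¹) := by
  intro j
  induction j with
  | zero => intro i f _ _; simp [R]
  | succ j ih =>
    intro i f h1 h2
    have := (h i h1 (by omega) (f 0)).mul_right (ih (i + 1) (Fin.tail f) (by omega) (by omega))
    have e : T ^ i * R ρ T (j + 1) f * (T ^ i)⁻¹ = T ^ i * ρ (f 0) * (T ^ i)⁻¹ *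
        (T ^ (i + 1) * R ρ T j (Fin.tail f) * (T ^ (i + 1))⁻¹) := by
      simp only [R]
      group
    rwa [e]

lemma R_mul {P : Type} [Group P] {ρ : P → Δ} {T : Δ} {J : ℕ} (hρ : ∀ a b, ρ (a * b) = ρ a * ρ b)
    (h : ∀ i, 1 ≤ i → i ≤ J → ∀ a b, Commute (ρ a) (T ^ i * ρ b * (T ^ i)⁻¹)) :
    ∀ j, j ≤ J → ∀ f g, R ρ T j (f * g) = R ρ T j f * R ρ T j g := by
  intro j
  induction j with
  | zero => intro _ f g; simp [R]
  | succ j ih =>
    intro hj f g
    have h1 := (R_comm (fun i a b => h i a b (g 0)) j 1 (Fin.tail f) le_rfl (by omega)).eq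
    have h2 : Fin.tail (f * g) = Fin.tail f * Fin.tail g := rfl
    simp only [R, h2, ih (by omega), Pi.mul_apply, hρ, pow_one] at h1 ⊢
    calc _ = ρ (f 0) * (ρ (g 0) * (T * R ρ T j (Fin.tail f) * T⁻¹)) * T *
          R ρ T j (Fin.tail g) * T⁻¹ := by group
      _ = _ := by rw [h1]; group

def Wd : ∀ j : ℕ, (Fin j → List Bool) → List (Fin 3)
  | 0, _ => []
  | j + 1, e => W (e 0) ++ 1 :: 0 :: Wd j (Fin.tail e)

lemma Wd_len (k : ℕ) : ∀ j (e : Fin j → List Bool), (∀ i, (e i).length = k) →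
    (Wd j e).length ≤ 3 * (k + 1) * j := by
  intro j
  induction j with
  | zero => simp [Wd]
  | succ j ih =>
    intro e h
    have := ih (Fin.tail e) fun i => h _
    have := W_len (e 0)
    simp only [Wd, List.length_append, List.length_cons, h] at *
    nlinarith

lemma ev_Wd {P : Type} (y : Fin 3 → Δ) (ρ : P → Δ) (k : ℕ) : ∀ j (e : Fin j → List Bool)
    (c : Fin j → P), (∀ i, ev y (W (e i)) = ρ (c i) * (y 1 * y 0) ^ k) →
    ev y (Wd j e) = R ρ ((y 1 * y 0) ^ (k + 1)) j c * ((y 1 * y 0) ^ (k + 1)) ^ j := by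
  intro j
  induction j with
  | zero => simp [Wd, R]
  | succ j ih =>
    intro e c h
    simp only [Wd, R, ev_append, ev_cons, h, ih (Fin.tail e) (Fin.tail c) fun i => h _]
    rw [← mul_assoc (y 1)]
    generalize y 1 * y 0 = t
    group

end ev

def x (A : Type) [Ring A] [DecidableEq A] : Fin 3 → Perm A :=
  ![Equiv.neg A, Equiv.subLeft 1, swap 0 1]

lemma x_sq (A : Type) [Ring A] [DecidableEq A] (k : Fin 3) : x A k * x A k = 1 := by
  fin_cases k
  · ext; simp [x]
  · ext; simp [x]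
  · simp [x]

lemma t_pow (n : ℕ) (z : ℤ) : ((x ℤ 1 * x ℤ 0) ^ n) z = z + n := by
  induction n with
  | zero => simp
  | succ n ih => rw [pow_succ', Perm.mul_apply, ih]; simp [x]; ring

lemma t_inv (n : ℕ) (z : ℤ) : ((x ℤ 1 * x ℤ 0) ^ n)⁻¹ z = z - n := by
  rw [Perm.inv_eq_iff_eq, t_pow]; ring

def std : ℤ → List Bool → Perm ℤ
  | _, [] => 1
  | l, e :: es => (if e then swap l (l + 1) else 1) * std (l + 1) es

lemma ev_W (es : List Bool) : ∀ l : ℕ, (x ℤ 1 * x ℤ 0) ^ l * ev (x ℤ) (W es) =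
    std l es * (x ℤ 1 * x ℤ 0) ^ (l + es.length) := by
  induction es with
  | nil => simp [W, std]
  | cons e es ih =>
    intro l
    have h := ih (l + 1)
    have h2 : (x ℤ 1 * x ℤ 0) ^ l * x ℤ 2 = swap (l : ℤ) (l + 1) * (x ℤ 1 * x ℤ 0) ^ l := by
      rw [show x ℤ 2 = swap 0 1 from rfl, mul_swap_eq_swap_mul, t_pow, t_pow, zero_add, add_comm]
    rw [pow_succ, Nat.cast_succ, show l + 1 + es.length = l + (es.length + 1) by ring] at h
    cases e
    · simpa [W, std, mul_assoc] using h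
    · simp only [W, std, if_true, List.length_cons, List.singleton_append, ev_cons, mul_assoc,
        ← h]
      rw [← mul_assoc, h2, mul_assoc]

lemma conj : ∀ (k : ℕ) (l : ℤ) (g : Perm ℤ), (∀ z, ¬ (l ≤ z ∧ z ≤ l + k) → g z = z) →
    ∀ p, l ≤ p → p ≤ l + k → ∃ (h : Perm ℤ) (es : List Bool), es.length = k ∧
      (∀ z, ¬ (l ≤ z ∧ z ≤ l + k) → h z = z) ∧ h p = l ∧ h * g = std l es * h := by
  intro k
  induction k with
  | zero =>
    intro l g hg p h1 h2
    refine ⟨1, [], rfl, by simp, by simp; omega, ?_⟩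
    ext z
    by_cases h : z = l
    · subst h
      show g z = z
      by_contra h3
      exact h3 (g.injective (hg _ fun h4 => h3 (by omega)))
    · simpa [std] using hg z (by omega)
  | succ k ih =>
    intro l g hg p h1 h2
    let g1 := swap l p * g * swap l p
    have hs : ∀ q, l ≤ q → q ≤ l + (k + 1 : ℕ) → ∀ z, ¬ (l ≤ z ∧ z ≤ l + (k + 1 : ℕ)) →
        swap l q z = z := fun q a b z h => swap_apply_of_ne_of_ne (by omega) (by omega)
    have h3 : ∀ z, ¬ (l ≤ z ∧ z ≤ l + (k + 1 : ℕ)) → g1 z = z := fun z h => by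
      simp [g1, hs p h1 h2 z h, hg z h]
    have h4 : l ≤ g1 l ∧ g1 l ≤ l + (k + 1 : ℕ) := by
      by_contra h
      have := g1.injective (h3 _ h)
      omega
    let g2 := swap l (g1 l) * g1
    have h5 : ∀ z, ¬ (l + 1 ≤ z ∧ z ≤ l + 1 + k) → g2 z = z := fun z h => by
      by_cases h6 : z = l
      · simp [g2, h6]
      · simp only [g2, Perm.mul_apply]
        rw [h3 z (by omega), hs _ h4.1 h4.2 z (by omega)]
    have h6 : g * swap l p = swap l p * (swap l (g1 l) * g2) := by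
      simp [g2, g1, ← mul_assoc]
    have h7 : ∀ h : Perm ℤ, (∀ z, ¬ (l + 1 ≤ z ∧ z ≤ l + 1 + k) → h z = z) →
        (∀ z, ¬ (l ≤ z ∧ z ≤ l + (k + 1 : ℕ)) → (h * swap l p) z = z) ∧ (h * swap l p) p = l :=
      fun h hh => ⟨fun z a => by simp [hs p h1 h2 z a, hh z (by omega)], by
        simp [hh l (by omega)]⟩
    have h8 : ∀ h : Perm ℤ, h * swap l p * g = h * (swap l (g1 l) * g2) * swap l p := fun h => by
      have : g = swap l p * (swap l (g1 l) * g2) * swap l p := by
        rw [← h6]; simp [mul_assoc]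
      conv_lhs => rw [this]
      simp [← mul_assoc]
    by_cases h9 : g1 l = l
    · obtain ⟨h, es, a, b, -, d⟩ := ih (l + 1) g2 h5 (l + 1) le_rfl (by omega)
      refine ⟨h * swap l p, false :: es, by simp [a], (h7 h b).1, (h7 h b).2, ?_⟩
      rw [h8, h9, swap_self, ← Perm.one_def, one_mul, d]
      simp [std, mul_assoc]
    · obtain ⟨h, es, a, b, c, d⟩ := ih (l + 1) g2 h5 (g1 l) (by omega) (by omega)
      refine ⟨h * swap l p, true :: es, by simp [a], (h7 h b).1, (h7 h b).2, ?_⟩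
      rw [h8, ← mul_assoc h, mul_swap_eq_swap_mul h, c, b l (by omega), mul_assoc _ h, d]
      simp [std, mul_assoc]

lemma std_fix (es : List Bool) : ∀ l z : ℤ, ¬ (l ≤ z ∧ z ≤ l + es.length) → std l es z = z := by
  induction es with
  | nil => simp [std]
  | cons e es ih =>
    intro l z h
    simp only [List.length_cons, Nat.cast_succ] at h
    simp only [std, Perm.mul_apply, ih (l + 1) z (by omega)]
    cases e
    · rfl
    · exact swap_apply_of_ne_of_ne (by omega) (by omega)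

lemma swap_word (a b : ℕ) : ∃ w, ev (x ℤ) w = swap (a : ℤ) (a + b) := by
  have h : ∀ l : ℕ, ∃ w, ev (x ℤ) w = swap (l : ℤ) (l + 1) := fun l =>
    ⟨tw l ++ 2 :: (tw l).reverse, by
      rw [ev_append, ev_cons, ev_rev (x_sq ℤ), ev_tw, ← mul_assoc,
        show x ℤ 2 = swap 0 1 from rfl, mul_swap_eq_swap_mul, t_pow, t_pow]
      simp [add_comm]⟩
  induction b with
  | zero => exact ⟨[], by simp; rfl⟩
  | succ b ih =>
    rcases b with _ | b
    · simpa using h a
    obtain ⟨w, hw⟩ := ih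
    obtain ⟨u, hu⟩ := h (a + (b + 1))
    refine ⟨u ++ w ++ u, ?_⟩
    rw [ev_append, ev_append, hw, hu]
    push_cast
    rw [swap_mul_swap_mul_swap (by omega) (by omega), swap_comm, add_assoc]

abbrev P (k : ℕ) := Perm {z : ℤ // 0 ≤ z ∧ z ≤ 0 + (k : ℤ)}

noncomputable instance (k : ℕ) : Fintype {z : ℤ // 0 ≤ z ∧ z ≤ 0 + (k : ℤ)} :=
  Fintype.subtype (Finset.Icc 0 (0 + (k : ℤ))) (by simp)

lemma card_P (k : ℕ) : Fintype.card (P k) = (k + 1).factorial := by
  rw [Fintype.card_perm, Fintype.card_of_subtype (Finset.Icc 0 (0 + (k : ℤ))) (by simp)]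
  simp

lemma P_word (k : ℕ) (g : P k) : ∃ w, ev (x ℤ) w = ofSubtype g := by
  induction g using swap_induction_on with
  | one => exact ⟨[], by simp⟩
  | swap_mul f a b _ ih =>
    obtain ⟨w, hw⟩ := ih
    obtain ⟨u, hu⟩ : ∃ u, ev (x ℤ) u = swap a.1 b.1 := by
      obtain ⟨a, ha⟩ := a
      obtain ⟨b, hb⟩ := b
      rcases le_total a b with h | h
      · obtain ⟨u, hu⟩ := swap_word a.toNat (b - a).toNat
        exact ⟨u, by rw [hu]; congr <;> (simp only; omega)⟩
      · obtain ⟨u, hu⟩ := swap_word b.toNat (a - b).toNat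
        exact ⟨u, by rw [hu, swap_comm]; congr <;> (simp only; omega)⟩
    exact ⟨u ++ w, by rw [ev_append, hu, hw, map_mul, ofSubtype_swap_eq]⟩

lemma P_surj {k : ℕ} (h : Perm ℤ) (hh : ∀ z, ¬ (0 ≤ z ∧ z ≤ 0 + (k : ℤ)) → h z = z) :
    ∃ g : P k, ofSubtype g = h :=
  ⟨(Perm.subtypeEquivSubtypePerm _).symm ⟨h, hh⟩,
    congrArg Subtype.val ((Perm.subtypeEquivSubtypePerm _).apply_symm_apply ⟨h, hh⟩)⟩

lemma R_one (k : ℕ) : ∀ j (c : Fin j → P k),
    (∀ z < 0, R ofSubtype ((x ℤ 1 * x ℤ 0) ^ (k + 1)) j c z = z) ∧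
    (R ofSubtype ((x ℤ 1 * x ℤ 0) ^ (k + 1)) j c = 1 → c = 1) := by
  intro j
  induction j with
  | zero => exact fun c => ⟨by simp [R], fun _ => Subsingleton.elim _ _⟩
  | succ j ih =>
    intro c
    have h1 : ∀ z ≤ (k : ℤ), R ofSubtype ((x ℤ 1 * x ℤ 0) ^ (k + 1)) (j + 1) c z =
        ofSubtype (c 0) z := fun z hz => by
      simp only [R, Perm.mul_apply, t_inv, t_pow]
      rw [(ih _).1 _ (by omega)]
      simp
    refine ⟨fun z hz => by rw [h1 z (by omega), ofSubtype_apply_of_not_mem _ (by omega)],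
      fun h => ?_⟩
    have h2 : c 0 = 1 := by
      ext z
      have := h1 z (by have := z.2; omega)
      rw [h, ofSubtype_apply_of_mem (c 0) z.2] at this
      exact this.symm
    simp only [R, h2, map_one, one_mul, conj_eq_one_iff] at h
    funext i
    refine Fin.cases h2 (fun i => congrFun ((ih _).2 h) i) i

theorem big (k : ℕ) : ∃ f : ℕ, ∀ (j r : ℕ) (V : Type) (y : Fin 3 → Perm V),
    (∀ k, y k * y k = 1) → f + 4 * (k + 1) * j ≤ r →
    (∀ w w' v, w.length ≤ r → w'.length ≤ r → (ev y w v = ev y w' v ↔ ev (x ℤ) w = ev (x ℤ) w')) →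
    V → ∃ F : (Fin j → P k) → V, Function.Injective F := by
  choose wd hw using P_word k
  obtain ⟨f, hf⟩ : ∃ f, ∀ g, (wd g).length ≤ f :=
    ⟨Finset.univ.sup fun g => (wd g).length,
      fun g => Finset.le_sup (f := fun g => (wd g).length) (Finset.mem_univ g)⟩
  refine ⟨2 * f + 3 * k, fun j r V y hy hr H v => ?_⟩
  have E : ∀ w w', w.length ≤ r → w'.length ≤ r → ev (x ℤ) w = ev (x ℤ) w' → ev y w = ev y w' :=
    fun w w' a b c => Equiv.ext fun v => (H w w' v a b).2 c
  let ρ : P k → Perm V := fun g => ev y (wd g)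
  let T := (y 1 * y 0) ^ (k + 1)
  have h1 : ∀ a b, ρ (a * b) = ρ a * ρ b := fun a b => by
    have := hf a
    have := hf b
    have := hf (a * b)
    simp only [ρ]
    rw [← ev_append]
    exact E _ _ (by omega) (by simp; omega) (by simp [hw])
  have h2 : ∀ i, 1 ≤ i → i ≤ j → ∀ a b, Commute (ρ a) (T ^ i * ρ b * (T ^ i)⁻¹) := by
    intro i i1 i2 a b
    have := hf a
    have := hf b
    have := Nat.mul_le_mul_left (k + 1) i2
    have := E (wd a ++ (tw ((k + 1) * i) ++ wd b ++ (tw ((k + 1) * i)).reverse))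
      ((tw ((k + 1) * i) ++ wd b ++ (tw ((k + 1) * i)).reverse) ++ wd a) (by simp; nlinarith)
      (by simp; nlinarith) (by
        simp only [ev_append, ev_rev (x_sq ℤ), ev_tw, hw]
        refine (Perm.Disjoint.commute fun z => ?_).eq
        by_cases h : 0 ≤ z ∧ z ≤ 0 + (k : ℤ)
        · right
          simp only [Perm.mul_apply, t_inv, t_pow]
          have i3 : (1 : ℤ) ≤ i := by exact_mod_cast i1
          rw [ofSubtype_apply_of_not_mem b fun h' => by
            have := h'.1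
            push_cast at this
            nlinarith [h.2]]
          simp
        · exact .inl (ofSubtype_apply_of_not_mem _ h))
    simp only [ev_append, ev_rev hy, ev_tw, pow_mul] at this
    exact this
  have h3 := R_mul h1 h2 j le_rfl
  refine ⟨fun c => R ρ T j c v, fun c d h => ?_⟩
  have h4 : R ρ T j (d⁻¹ * c) v = v := by
    apply (R ρ T j d).injective
    rw [← Perm.mul_apply, ← h3]
    simpa using h
  have h5 : ∀ g : P k, ∃ (u s : P k) (es : List Bool), es.length = k ∧ u * g = s * u ∧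
      ofSubtype s = std 0 es := fun g => by
    obtain ⟨u, es, a, b, -, c⟩ := conj k 0 (ofSubtype g)
      (fun z => ofSubtype_apply_of_not_mem g) 0 le_rfl (by omega)
    obtain ⟨u, rfl⟩ := P_surj u b
    obtain ⟨s, hs⟩ := P_surj (k := k) (std 0 es) fun z hz => std_fix es 0 z (a ▸ hz)
    exact ⟨u, s, es, a, ofSubtype_injective (by rw [map_mul, map_mul, c, hs]), hs⟩
  choose u s es a1 a2 a3 using fun i => h5 ((d⁻¹ * c) i)
  have h6 : u * (d⁻¹ * c) = s * u := funext a2
  have h7 : R ρ T j s (R ρ T j u v) = R ρ T j u v := by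
    rw [← Perm.mul_apply, ← h3, ← h6, h3, Perm.mul_apply, h4]
  have b1 : ∀ i, ev (x ℤ) (W (es i)) = ofSubtype (s i) * (x ℤ 1 * x ℤ 0) ^ k := fun i => by
    simpa [a1, a3] using ev_W (es i) 0
  have b2 : ∀ i, ev y (W (es i)) = ρ (s i) * (y 1 * y 0) ^ k := fun i => by
    have := W_len (es i)
    have := hf (s i)
    have := a1 i
    rw [← ev_tw, ← ev_append]
    exact E _ _ (by omega) (by simp; omega) (by simp [hw, b1])
  have b3 := (H (Wd j es) (tw ((k + 1) * j)) ((T ^ j)⁻¹ (R ρ T j u v))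
    (by have := Wd_len k j es a1; nlinarith) (by simp; nlinarith)).1 (by
      rw [ev_Wd y ρ k j es s b2, ev_tw, pow_mul]
      simpa [T] using h7)
  rw [ev_Wd _ ofSubtype k j es s b1, ev_tw, pow_mul, mul_eq_right] at b3
  rw [(R_one k j s).2 b3, one_mul, mul_eq_left, inv_mul_eq_one] at h6
  exact h6.symm

end Pool.Agent.H.MP_fed0c4_co
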