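import Mathlib

set_option autoImplicit false

namespace Pool.Agent.H.MP_fed0c4_co

/-- The rooted r-balls of G at o and of H at v are isomorphic. -/
def SameBall {V W : Type} (G : SimpleGraph V) (o : V) (H : SimpleGraph W) (v : W) (r : ℕ) : Prop :=
  ∃ φ : G.induce {w | G.dist o w ≤ r} ≃g H.induce {w | H.dist v w ≤ r},
    ∀ a, a.1 = o ↔ (φ a).1 = v

/-- Vertex-transitive. -/
def VT {V : Type} (G : SimpleGraph V) : Prop := ∀ u v, ∃ φ : G ≃g G, φ u = v

end Pool.Agent.H.MP_fed0c4_co
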