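import Mathlib
import Pool.Agent.H.MP_891b03_co.A
import Pool.Agent.H.MP_fed0c4_co.A
import Pool.Agent.H.MP_fed0c4_co.Defs

set_option autoImplicit false
set_option linter.unusedSectionVars false

namespace Pool.Agent.H.MP_fed0c4_co

open SimpleGraph

lemma SameBall.symm {V W : Type} {G : SimpleGraph V} {o : V} {H : SimpleGraph W} {v : W} {r : ℕ}
    (h : SameBall G o H v r) : SameBall H v G o r :=
  h.elim fun φ hφ => ⟨φ.symm, fun a => by rw [hφ]; simp⟩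

lemma SameBall.trans {V W U : Type} {G : SimpleGraph V} {o : V} {H : SimpleGraph W} {v : W}
    {K : SimpleGraph U} {u : U} {r : ℕ} (h : SameBall G o H v r) (h' : SameBall H v K u r) :
    SameBall G o K u r :=
  h.elim fun φ hφ => h'.elim fun ψ hψ => ⟨φ.trans ψ, fun a => (hφ a).trans (hψ _)⟩

lemma sb_of {V V' : Type} {G : SimpleGraph V} {G' : SimpleGraph V'} {v : V} {v' : V'} {r : ℕ}
    (h : ∃ φ : {w // G.dist v w ≤ r} ≃ {w // G'.dist v' w ≤ r},
      (∀ a, a.1 = v ↔ (φ a).1 = v') ∧ ∀ a b, G.Adj a.1 b.1 ↔ G'.Adj (φ a).1 (φ b).1) :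
    SameBall G v G' v' r :=
  h.elim fun φ hφ => ⟨⟨φ, fun {a b} => (hφ.2 a b).symm⟩, hφ.1⟩

lemma sb_iso {V V' : Type} {G : SimpleGraph V} {G' : SimpleGraph V'} (hG : G.Connected)
    (φ : G ≃g G') (v : V) (r : ℕ) : SameBall G v G' (φ v) r :=
  sb_of (MP_891b03_co.ball_iso hG (φ.connected_iff.1 hG) (fun _ a a' => a' = φ a) rfl
    (fun _ _ _ _ _ h => h) (fun _ a _ b _ h h' => ⟨φ b, rfl, h ▸ φ.map_adj_iff.2 h'⟩)
    (fun _ _ a b _ h h' => ⟨φ.symm b, by simp, φ.map_adj_iff.1 (by simpa [← h] using h')⟩)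
    (fun _ _ _ h h' => h.trans h'.symm) fun _ _ _ h h' => φ.injective (h.symm.trans h'))

lemma ball_card {V : Type} {G : SimpleGraph V} (hG : G.Connected) (d : ℕ)
    (h : ∀ v, ∃ N : Finset V, N.card ≤ d ∧ ∀ w, G.Adj v w → w ∈ N) (v : V) (D : ℕ) :
    ∃ B : Finset V, B.card ≤ (d + 1) ^ D ∧ ∀ w, G.dist v w ≤ D → w ∈ B := by
  classical
  choose N h1 h2 using h
  induction D with
  | zero => exact ⟨{v}, by simp, fun w hw => by
      simp [(hG.dist_eq_zero_iff.1 (Nat.le_zero.1 hw))]⟩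
  | succ D ih =>
    obtain ⟨B, a, b⟩ := ih
    refine ⟨B.biUnion fun u => insert u (N u), (Finset.card_biUnion_le_card_mul _ _ (d + 1)
      fun u _ => (Finset.card_insert_le _ _).trans (by have := h1 u; omega)).trans
        (by rw [pow_succ]; gcongr), fun w hw => ?_⟩
    obtain ⟨p, hp⟩ := (hG w v).exists_walk_length_eq_dist
    rw [SimpleGraph.dist_comm] at hp
    cases p with
    | nil => exact Finset.mem_biUnion.2 ⟨v, b _ (by simp), by simp⟩
    | @cons _ u _ e p =>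
      have := dist_le p
      rw [SimpleGraph.dist_comm] at this
      exact Finset.mem_biUnion.2 ⟨u, b u (by simp at hp; omega), by simp [h2 _ _ e.symm]⟩

def S : Finset (Option (Fin 3) × ZMod 8) :=
  {(none, 1), (none, 2), (none, 3), (none, 5), (none, 6), (none, 7), (some 0, 0), (some 1, 0),
    (some 1, 2), (some 1, 6), (some 2, 0), (some 2, 1), (some 2, 3), (some 2, 5), (some 2, 7)}

def Tb (a b c : Option (Fin 3)) : Prop := (a = none ∧ b = c) ∨ (b = none ∧ a = c) ∨ (c = none ∧ a = b)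

instance (a b c : Option (Fin 3)) : Decidable (Tb a b c) := by unfold Tb; infer_instance

def cnt (s : Option (Fin 3) × ZMod 8) : ℕ :=
  (S.filter fun z => ∃ o, (o, z.2 - s.2) ∈ S ∧ Tb o s.1 z.1).card

lemma cnt_eq : ∀ s ∈ S, ∀ k : Fin 3, cnt s = 4 * k ↔ s = (some k, 0) := by decide +kernel

lemma S_neg : ∀ o u, (o, u) ∈ S → (o, -u) ∈ S ∧ (u = 0 → o ≠ none) := by decide +kernel

lemma S_gen : ∀ k, (some k, 0) ∈ S := by decide +kernel

variable {Δ : Type} [Group Δ] (y : Fin 3 → Δ)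

def xo : Option (Fin 3) → Δ
  | none => 1
  | some k => y k

def Good : Prop := ∀ a b c, xo y a * xo y b = xo y c ↔ Tb a b c

def Cay : SimpleGraph (Δ × ZMod 8) :=
  fromRel fun g h => ∃ o, (o, h.2 - g.2) ∈ S ∧ h.1 = xo y o * g.1

def nb (g : Δ × ZMod 8) (s : Option (Fin 3) × ZMod 8) : Δ × ZMod 8 := (xo y s.1 * g.1, g.2 + s.2)

variable {y} (hy : Good y)
include hy

lemma sq (o : Option (Fin 3)) : xo y o * xo y o = 1 := (hy o o none).2 (by simp [Tb])

lemma xo_inj {a b : Option (Fin 3)} (h : xo y a = xo y b) : a = b := by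
  have := (hy a none b).1 (by simpa [xo] using h)
  simp only [Tb] at this
  grind

lemma cay_adj {g h : Δ × ZMod 8} :
    (Cay y).Adj g h ↔ ∃ o, (o, h.2 - g.2) ∈ S ∧ h.1 = xo y o * g.1 := by
  refine ⟨fun a => a.2.elim id fun ⟨o, a, b⟩ => ⟨o, by simpa using (S_neg _ _ a).1, by
    rw [b, ← mul_assoc, sq hy, one_mul]⟩, fun a => ⟨?_, .inl a⟩⟩
  rintro rfl
  obtain ⟨o, a, b⟩ := a
  exact (S_neg _ _ a).2 (sub_self _) (xo_inj hy (by simpa [xo] using b.symm))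

lemma nb_inj (g : Δ × ZMod 8) : Function.Injective (nb y g) := fun s t h => by
  simp only [nb, Prod.mk.injEq, mul_left_inj, add_right_inj] at h
  exact Prod.ext (xo_inj hy h.1) h.2

lemma nbr (g : Δ × ZMod 8) : (Cay y).neighborSet g = nb y g '' S := by
  ext h
  rw [mem_neighborSet, cay_adj hy]
  constructor
  · rintro ⟨o, a, b⟩
    exact ⟨_, a, Prod.ext b.symm (by simp [nb])⟩
  · rintro ⟨s, a, rfl⟩
    exact ⟨s.1, by simpa [nb] using a, rfl⟩

lemma deg (g : Δ × ZMod 8) : ((Cay y).neighborSet g).ncard = 15 := by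
  rw [nbr hy, Set.ncard_image_of_injective _ (nb_inj hy g), Set.ncard_coe_finset]
  decide +kernel

lemma cn (g : Δ × ZMod 8) (s : Option (Fin 3) × ZMod 8) :
    ((Cay y).commonNeighbors g (nb y g s)).ncard = cnt s := by
  rw [cnt, ← Set.ncard_coe_finset, ← Set.ncard_image_of_injective _ (nb_inj hy g)]
  congr 1
  ext h
  rw [commonNeighbors, Set.mem_inter_iff, nbr hy g, mem_neighborSet]
  constructor
  · rintro ⟨⟨z, a, rfl⟩, b⟩
    obtain ⟨o, b, c⟩ := (cay_adj hy).1 b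
    refine ⟨z, Finset.mem_coe.2 (Finset.mem_filter.2 ⟨a, o, by simpa [nb] using b, ?_⟩), rfl⟩
    exact (hy _ _ _).1 (by simpa [nb, ← mul_assoc] using c.symm)
  · rintro ⟨z, a, rfl⟩
    obtain ⟨a, o, b, c⟩ := Finset.mem_filter.1 (Finset.mem_coe.1 a)
    exact ⟨⟨z, a, rfl⟩, (cay_adj hy).2 ⟨o, by simpa [nb] using b, by
      simp [nb, ← mul_assoc, (hy _ _ _).2 c]⟩⟩

lemma adj_gen (g : Δ × ZMod 8) (k : Fin 3) : (Cay y).Adj g (y k * g.1, g.2) :=
  (cay_adj hy).2 ⟨some k, by simp only [sub_self]; revert k; decide +kernel, rfl⟩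

lemma vt : VT (Cay y) := fun u v =>
  ⟨⟨(Equiv.mulRight (u.1⁻¹ * v.1)).prodCongr (Equiv.addRight (v.2 - u.2)), by
    intro a b
    simp [cay_adj hy, ← mul_assoc]⟩, by ext <;> simp⟩

lemma conn (h : ∀ g, ∃ w, ev y w = g) : (Cay y).Connected := by
  have h1 : ∀ w, (Cay y).Reachable (1, 0) (ev y w, 0) := fun w => by
    induction w with
    | nil => rfl
    | cons k w ih => exact ih.trans (by simpa using (adj_gen hy (ev y w, 0) k).reachable)
  have h2 : ∀ g (n : ℕ), (Cay y).Reachable (g, 0) (g, n) := fun g n => by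
    induction n with
    | zero => simp
    | succ n ih =>
      exact ih.trans (Adj.reachable ((cay_adj hy).2 ⟨none, by simp [S], by simp [xo]⟩))
  have h3 : ∀ g, (Cay y).Reachable (1, 0) g := fun g => by
    obtain ⟨w, hw⟩ := h g.1
    simpa [hw] using (h1 w).trans (h2 _ g.2.val)
  exact ⟨fun a b => (h3 a).symm.trans (h3 b)⟩

omit hy in
lemma xo_ev (o : Option (Fin 3)) : xo y o = ev y o.toList := by
  cases o <;> simp [xo]

lemma iso {Δ' : Type} [Group Δ'] {y' : Fin 3 → Δ'} (hy' : Good y') (hG : (Cay y).Connected)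
    (hG' : (Cay y').Connected) (r : ℕ) (l : ∀ p q, p.length ≤ r + 1 → q.length ≤ r + 1 →
      (ev y p = ev y q ↔ ev y' p = ev y' q)) : SameBall (Cay y) (1, 0) (Cay y') (1, 0) r := by
  refine sb_of (MP_891b03_co.ball_iso hG hG' (fun n a a' => a.2 = a'.2 ∧ ∃ p : List (Fin 3),
    p.length ≤ n ∧ a.1 = ev y p ∧ a'.1 = ev y' p) ⟨rfl, [], le_rfl, rfl, rfl⟩
    (fun n m a a' h ⟨h1, p, h2, h3⟩ => ⟨h1, p, h2.trans h, h3⟩) ?_ ?_ ?_ ?_)
  · rintro n a a' b - ⟨h1, p, h2, h3, h4⟩ h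
    obtain ⟨o, h5, h6⟩ := (cay_adj hy).1 h
    exact ⟨(xo y' o * a'.1, b.2), ⟨rfl, o.toList ++ p, by cases o <;> simp <;> omega,
      by simp [h6, h3, xo_ev], by simp [h4, xo_ev]⟩, (cay_adj hy').2 ⟨o, h1 ▸ h5, rfl⟩⟩
  · rintro n a' a b - ⟨h1, p, h2, h3, h4⟩ h
    obtain ⟨o, h5, h6⟩ := (cay_adj hy').1 h
    exact ⟨(xo y o * a.1, b.2), ⟨rfl, o.toList ++ p, by cases o <;> simp <;> omega,
      by simp [h3, xo_ev], by simp [h6, h4, xo_ev]⟩, (cay_adj hy).2 ⟨o, h1 ▸ h5, rfl⟩⟩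
  · rintro a a' b' ⟨h1, p, h2, h3, h4⟩ ⟨h5, q, h6, h7, h8⟩
    exact Prod.ext (by rw [h4, h8]; exact (l p q h2 h6).1 (h3.symm.trans h7)) (h1.symm.trans h5)
  · rintro a b a' ⟨h1, p, h2, h3, h4⟩ ⟨h5, q, h6, h7, h8⟩
    exact Prod.ext (by rw [h3, h7]; exact (l p q h2 h6).2 (h4.symm.trans h8)) (h1.trans h5.symm)

omit hy in
lemma cn_eq {V V' : Type} {G : SimpleGraph V} {G' : SimpleGraph V'} (hG : G.Connected)
    (hG' : G'.Connected) {v : V} {v' : V'} {r : ℕ}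
    (φ : G.induce {w | G.dist v w ≤ r} ≃g G'.induce {w | G'.dist v' w ≤ r}) (a b : {w | G.dist v w ≤ r})
    (h : G.dist v a + 1 ≤ r) (h' : G'.dist v' (φ a) + 1 ≤ r) :
    (G.commonNeighbors a b).ncard = (G'.commonNeighbors (φ a) (φ b)).ncard := by
  have k : ∀ {V : Type} {G : SimpleGraph V}, G.Connected → ∀ {v a w : V}, G.dist v a + 1 ≤ r →
      G.Adj a w → G.dist v w ≤ r := fun hG v a w h e => by
    have := hG.dist_triangle (u := v) (v := a) (w := w)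
    rw [dist_eq_one_iff_adj.2 e] at this
    omega
  refine Set.ncard_congr (fun w hw => (φ ⟨w, k hG h hw.1⟩).1) (fun w hw =>
    ⟨(φ.map_adj_iff (v := a) (w := ⟨w, _⟩)).2 hw.1, (φ.map_adj_iff (v := b) (w := ⟨w, _⟩)).2 hw.2⟩)
    (fun w z hw hz e => congrArg Subtype.val (φ.injective (Subtype.ext e))) fun w hw => ?_
  refine ⟨(φ.symm ⟨w, k hG' h' hw.1⟩).1, ⟨(φ.map_adj_iff (v := a)).1 ?_,
    (φ.map_adj_iff (v := b)).1 ?_⟩, ?_⟩
  · simpa using hw.1
  · simpa using hw.2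
  · simp

theorem extract (hG : (Cay y).Connected) {V : Type} {H : SimpleGraph V} (hH : H.Connected) (r : ℕ)
    (hr : 1 ≤ r) (h : ∀ v, SameBall H v (Cay y) (1, 0) r) :
    (∀ v, ∃ N : Finset V, N.card ≤ 15 ∧ ∀ w, H.Adj v w → w ∈ N) ∧
    ∃ s : Fin 3 → Equiv.Perm V, (∀ k, s k * s k = 1) ∧ ∀ w w' v, w.length ≤ r → w'.length ≤ r →
      (ev s w v = ev s w' v ↔ ev y w = ev y w') := by
  classical
  choose φ hφ using h
  have m0 : ∀ v, H.dist v v ≤ r := by simp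
  have m1 : ∀ {v w}, H.Adj v w → H.dist v w ≤ r := fun e => by rwa [dist_eq_one_iff_adj.2 e]
  have r0 : ∀ v, (φ v ⟨v, m0 v⟩).1 = (1, 0) := fun v => (hφ v _).1 rfl
  have key : ∀ v (a : {w | H.dist v w ≤ r}) k, H.dist v a + 1 ≤ r →
      (Cay y).dist (1, 0) (φ v a) + 1 ≤ r → ∃ b : {w | H.dist v w ≤ r}, H.Adj a b ∧
        (H.commonNeighbors a b).ncard = 4 * k.1 ∧ (φ v b).1 = (y k * (φ v a).1.1, (φ v a).1.2) := by
    intro v a k h1 h2
    have e := adj_gen hy (φ v a).1 k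
    have := hG.dist_triangle (u := (1, 0)) (v := (φ v a).1) (w := (y k * (φ v a).1.1, (φ v a).1.2))
    rw [dist_eq_one_iff_adj.2 e] at this
    refine ⟨(φ v).symm ⟨_, this.trans h2⟩, ((φ v).map_adj_iff (v := a)).1 (by simpa using e), ?_,
      by simp⟩
    rw [cn_eq hH hG (φ v) _ _ h1 h2, ← (cnt_eq (some k, 0) (S_gen k) k).2 rfl,
      ← cn hy (φ v a).1]
    simp [nb, xo]
  have uq : ∀ v w k, H.Adj v w → (H.commonNeighbors v w).ncard = 4 * k.1 →
      ∀ hw, (φ v ⟨w, hw⟩).1 = (y k, 0) := by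
    intro v w k e c hw
    have e' : (φ v ⟨w, hw⟩).1 ∈ (Cay y).neighborSet (φ v ⟨v, m0 v⟩).1 :=
      ((φ v).map_adj_iff (v := ⟨v, m0 v⟩) (w := ⟨w, hw⟩)).2 e
    rw [nbr hy] at e'
    obtain ⟨z, hz, e'⟩ := e'
    have := cn_eq hH hG (φ v) ⟨v, m0 v⟩ ⟨w, hw⟩ (by simpa) (by simpa [r0])
    rw [← e', cn hy, c] at this
    rw [← e', (cnt_eq z hz k).1 this.symm, r0]
    simp [nb, xo]
  choose s s1 s2 _ using fun k v => key v ⟨v, m0 v⟩ k (by simpa) (by simpa [r0])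
  have s3 : ∀ k v w, H.Adj v w → (H.commonNeighbors v w).ncard = 4 * k.1 → w = s k v :=
    fun k v w e c => congrArg Subtype.val ((φ v).injective (a₁ := ⟨w, m1 e⟩) (Subtype.ext
      ((uq v w k e c _).trans (uq v _ k (s1 k v) (s2 k v) (s k v).2).symm)))
  have s4 : ∀ k, Function.Involutive fun v => (s k v).1 := fun k v =>
    (s3 k _ v (s1 k v).symm (by rw [commonNeighbors_symm]; exact s2 k v)).symm
  refine ⟨fun v => ?_, fun k => (s4 k).toPerm, fun k => Equiv.ext (s4 k), ?_⟩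
  · refine ⟨(S.image (nb y (1, 0))).image fun g => if hg : (Cay y).dist (1, 0) g ≤ r then
      ((φ v).symm ⟨g, hg⟩).1 else v, Finset.card_image_le.trans (Finset.card_image_le.trans
        (by decide +kernel)), fun w e => Finset.mem_image.2 ⟨(φ v ⟨w, m1 e⟩).1, ?_, ?_⟩⟩
    · rw [← Finset.mem_coe, Finset.coe_image, ← nbr hy]
      have e' : (Cay y).Adj (φ v ⟨v, m0 v⟩).1 (φ v ⟨w, m1 e⟩).1 :=
        ((φ v).map_adj_iff (v := ⟨v, m0 v⟩) (w := ⟨w, m1 e⟩)).2 e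
      rwa [r0] at e'
    · exact (dif_pos (φ v ⟨w, m1 e⟩).2).trans (by simp)
  have ind : ∀ v (w : List (Fin 3)), w.length ≤ r → ∃ a : {w | H.dist v w ≤ r},
      a.1 = ev (fun k => (s4 k).toPerm) w v ∧ (φ v a).1 = (ev y w, 0) ∧ H.dist v a ≤ w.length ∧
        (Cay y).dist (1, 0) (φ v a) ≤ w.length := by
    intro v w
    induction w with
    | nil => exact fun _ => ⟨⟨v, m0 v⟩, rfl, r0 v, by simp, by simp [r0]⟩
    | cons k w ih =>
      intro hw
      rw [List.length_cons] at hw ⊢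
      obtain ⟨a, a1, a2, a3, a4⟩ := ih (by omega)
      obtain ⟨b, b1, b2, b3⟩ := key v a k (by omega) (by omega)
      have t1 := hH.dist_triangle (u := v) (v := a) (w := b)
      have t2 := hG.dist_triangle (u := (1, 0)) (v := (φ v a).1) (w := (φ v b).1)
      rw [dist_eq_one_iff_adj.2 b1] at t1
      rw [dist_eq_one_iff_adj.2 (show (Cay y).Adj (φ v a).1 (φ v b).1 from
        ((φ v).map_adj_iff (v := a) (w := b)).2 b1)] at t2
      refine ⟨b, ?_, by simp [b3, a2], by omega, by omega⟩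
      rw [s3 k _ _ b1 b2, a1]
      simp
  intro w w' v h1 h2
  obtain ⟨a, a1, a2, -⟩ := ind v w h1
  obtain ⟨b, b1, b2, -⟩ := ind v w' h2
  rw [← a1, ← b1, Subtype.val_inj, ← (φ v).injective.eq_iff, ← Subtype.val_inj, a2, b2]
  simp

end Pool.Agent.H.MP_fed0c4_co
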