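import Mathlib
import Pool.Agent.H.MP_fed0c4_co.B

set_option autoImplicit false
set_option linter.unusedSectionVars false

namespace Pool.Agent.H.MP_fed0c4_co

open SimpleGraph Equiv

def Γ (A : Type) [Ring A] [DecidableEq A] : Subgroup (Perm A) where
  carrier := {g | ∃ w, ev (x A) w = g}
  mul_mem' := fun ⟨p, hp⟩ ⟨q, hq⟩ => ⟨p ++ q, by simp [hp, hq]⟩
  one_mem' := ⟨[], rfl⟩
  inv_mem' := fun ⟨p, hp⟩ => ⟨p.reverse, by rw [ev_rev (x_sq A), hp]⟩

def y (A : Type) [Ring A] [DecidableEq A] (k : Fin 3) : Γ A := ⟨x A k, [k], by simp⟩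

lemma ev_y (A : Type) [Ring A] [DecidableEq A] (w : List (Fin 3)) :
    (ev (y A) w).1 = ev (x A) w := by
  induction w with
  | nil => rfl
  | cons k w ih => simp [ih, y]

lemma gen (A : Type) [Ring A] [DecidableEq A] (g : Γ A) : ∃ w, ev (y A) w = g :=
  g.2.elim fun w hw => ⟨w, Subtype.ext ((ev_y A w).trans hw)⟩

lemma cast_ev (n : ℕ) (w : List (Fin 3)) (z : ℤ) (h : |z| + w.length + 1 < n) :
    ev (x (ZMod n)) w z = (ev (x ℤ) w z : ℤ) ∧ |ev (x ℤ) w z| ≤ |z| + w.length := by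
  induction w with
  | nil => simp
  | cons k w ih =>
    simp only [List.length_cons, Nat.cast_succ] at h ⊢
    obtain ⟨a, b⟩ := ih (by omega)
    simp only [ev_cons, Perm.mul_apply, a]
    generalize ev (x ℤ) w z = u at b
    have hb := abs_le.1 b
    have hz := abs_nonneg z
    fin_cases k
    · simp [x]; omega
    · simp [x, abs_le]; omega
    · have k : ∀ c : ℤ, 0 ≤ c → c ≤ 1 → (u : ZMod n) = c → u = c := fun c c0 c1 e => by
        have := Int.eq_zero_of_abs_lt_dvd ((ZMod.intCast_eq_intCast_iff_dvd_sub _ _ _).1 e)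
          (abs_lt.2 ⟨by omega, by omega⟩)
        omega
      by_cases h0 : u = 0
      · simp [x, h0]; omega
      by_cases h1 : u = 1
      · simp [x, h1]; omega
      have e1 : swap (0 : ℤ) 1 u = u := swap_apply_of_ne_of_ne h0 h1
      have e2 : swap (0 : ZMod n) 1 u = u := swap_apply_of_ne_of_ne
        (fun e => h0 (k 0 le_rfl (by omega) (by simpa using e)))
        fun e => h1 (k 1 (by omega) le_rfl (by simpa using e))
      simp [x, e1, e2]; omega

lemma far (w : List (Fin 3)) : ∃ e c : ℤ, ∀ z : ℤ, w.length + 1 < |z| →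
    ev (x ℤ) w z = e * z + c ∧ |z| ≤ |ev (x ℤ) w z| + w.length := by
  induction w with
  | nil => exact ⟨1, 0, by simp⟩
  | cons k w ih =>
    obtain ⟨e, c, h⟩ := ih
    simp only [List.length_cons, Nat.cast_succ, ev_cons, Perm.mul_apply]
    generalize ev (x ℤ) w = g at h
    fin_cases k
    · refine ⟨-e, -c, fun z hz => ?_⟩
      obtain ⟨a, b⟩ := h z (by omega)
      exact ⟨by simp [x, a]; ring, by simp [x]; omega⟩
    · refine ⟨-e, 1 - c, fun z hz => ?_⟩
      obtain ⟨a, b⟩ := h z (by omega)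
      refine ⟨by simp [x, a]; ring, ?_⟩
      have := abs_sub_abs_le_abs_sub (g z) 1
      rw [abs_sub_comm] at this
      simp [x] at this ⊢
      omega
    · refine ⟨e, c, fun z hz => ?_⟩
      obtain ⟨a, b⟩ := h z (by omega)
      have e1 : swap (0 : ℤ) 1 (g z) = g z :=
        swap_apply_of_ne_of_ne (fun e => by simp [e] at b; omega) fun e => by simp [e] at b; omega
      exact ⟨by simpa [x, e1] using a, by simp [x, e1]; omega⟩

lemma loc1 (n : ℕ) (u : List (Fin 3)) (h : 4 * u.length + 8 < n) :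
    ev (x ℤ) u = 1 ↔ ev (x (ZMod n)) u = 1 := by
  have : NeZero n := ⟨by omega⟩
  constructor
  · intro h1
    ext c
    have a := ZMod.natAbs_valMinAbs_le c
    have := (cast_ev n u c.valMinAbs (by rw [Int.abs_eq_natAbs]; omega)).1
    simpa [h1] using this
  · intro h1
    have k : ∀ z : ℤ, |z| ≤ u.length + 2 → ev (x ℤ) u z = z := fun z hz => by
      obtain ⟨a, b⟩ := cast_ev n u z (by omega)
      rw [h1] at a
      have := abs_le.1 b
      have := abs_le.1 hz
      have := Int.eq_zero_of_abs_lt_dvd ((ZMod.intCast_eq_intCast_iff_dvd_sub _ _ _).1 a)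
        (abs_lt.2 ⟨by omega, by omega⟩)
      omega
    obtain ⟨e, c, h2⟩ := far u
    have p : |(u.length + 2 : ℤ)| = u.length + 2 := abs_of_nonneg (by omega)
    have a := (h2 (u.length + 2) (by omega)).1
    have b := (h2 (-(u.length + 2)) (by rw [abs_neg]; omega)).1
    rw [k _ p.le] at a
    rw [k _ (by rw [abs_neg]; omega)] at b
    obtain rfl : c = 0 := by linarith
    obtain rfl : e = 1 := mul_right_cancel₀ (b := (u.length + 2 : ℤ)) (by omega) (by linarith)
    ext z
    by_cases hz : |z| ≤ u.length + 2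
    · exact k z hz
    · simpa using (h2 z (by omega)).1

lemma loc (n : ℕ) (p q : List (Fin 3)) (h : 4 * (p.length + q.length) + 8 < n) :
    ev (y ℤ) p = ev (y ℤ) q ↔ ev (y (ZMod n)) p = ev (y (ZMod n)) q := by
  have := loc1 n (q.reverse ++ p) (by simp; omega)
  rw [ev_append, ev_append, ev_rev (x_sq _), ev_rev (x_sq _), inv_mul_eq_one, inv_mul_eq_one,
    eq_comm, eq_comm (a := ev _ q)] at this
  rwa [← Subtype.val_inj, ← Subtype.val_inj (a := ev _ p), ev_y, ev_y, ev_y, ev_y]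

lemma good : Good (y ℤ) := by
  intro a b c
  constructor
  · intro h
    rw [xo_ev, xo_ev, xo_ev, ← ev_append, ← Subtype.val_inj, ev_y, ev_y] at h
    have k : ∀ a b c : Option (Fin 3), ev (x ℤ) (a.toList ++ b.toList) 0 = ev (x ℤ) c.toList 0 →
      ev (x ℤ) (a.toList ++ b.toList) 3 = ev (x ℤ) c.toList 3 → Tb a b c := by decide +kernel
    exact k a b c (by rw [h]) (by rw [h])
  · rintro (⟨rfl, rfl⟩ | ⟨rfl, rfl⟩ | ⟨rfl, rfl⟩)
    · exact one_mul _
    · exact mul_one _
    · cases a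
      · exact one_mul _
      · exact Subtype.ext (x_sq ℤ _)

lemma good' (n : ℕ) (h : 20 < n) : Good (y (ZMod n)) := fun a b c => by
  rw [← good a b c, xo_ev, xo_ev, xo_ev, ← ev_append, xo_ev, xo_ev, xo_ev, ← ev_append]
  exact (loc n _ _ (by cases a <;> cases b <;> cases c <;> simp <;> omega)).symm

lemma inf : Infinite (Γ ℤ × ZMod 8) :=
  Infinite.of_injective (fun n : ℕ => (ev (y ℤ) (tw n), 0)) fun a b h => by
    have := congrArg (fun g => g.1.1 0) h
    simpa [-ev_tw, ev_y, ev_tw (x ℤ), t_pow] using this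

lemma fin (r : ℕ) : ∃ (n : ℕ) (G : SimpleGraph (Fin n)) (o : Fin n), G.Connected ∧ VT G ∧
    (∀ v, (G.neighborSet v).ncard = 15) ∧ SameBall G o (Cay (y ℤ)) (1, 0) r := by
  classical
  have h := good' (8 * r + 21) (by omega)
  let e := Fintype.equivFin (Γ (ZMod (8 * r + 21)) × ZMod 8)
  let φ := Iso.map e (Cay (y (ZMod (8 * r + 21))))
  have c := conn h (gen _)
  refine ⟨_, _, φ (1, 0), φ.connected_iff.1 c, fun u v => ?_, fun v => ?_,
    (sb_iso c φ _ r).symm.trans (iso good h (conn good (gen _)) c r fun p q a b =>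
      loc _ p q (by omega)).symm⟩
  · obtain ⟨ψ, hψ⟩ := vt h (φ.symm u) (φ.symm v)
    exact ⟨(φ.symm.trans ψ).trans φ, by simp [hψ]⟩
  · rw [← deg h (φ.symm v)]
    exact Set.ncard_congr' (φ.symm.mapNeighborSet v)

theorem main (C : ℕ) : ∃ r0, ∀ r ≥ r0, ∀ (V : Type) (H : SimpleGraph V), H.Connected →
    (∀ v, SameBall H v (Cay (y ℤ)) (1, 0) r) → ((C * r : ℕ) : ℕ∞) < H.ediam := by
  obtain ⟨m, hm⟩ := Filter.eventually_atTop.1 (Nat.eventually_pow_lt_factorial_sub (16 ^ (8 * C)) 0)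
  have h0 := hm (m + 1) (by omega)
  obtain ⟨f, hf⟩ := big m
  refine ⟨f + 4 * (m + 1) * (f + 1), fun r hr V H hH h => ?_⟩
  by_contra hc
  obtain ⟨h1, s, h2, h3⟩ := extract good (conn good (gen _)) hH r (by nlinarith) h
  obtain ⟨v⟩ := hH.nonempty
  obtain ⟨j, j1, j2⟩ : ∃ j, f + 4 * (m + 1) * j ≤ r ∧ r < f + 4 * (m + 1) * (j + 1) := by
    have a := Nat.div_add_mod (r - f) (4 * (m + 1))
    have b := Nat.mod_lt (r - f) (show 0 < 4 * (m + 1) by omega)
    exact ⟨(r - f) / (4 * (m + 1)), by omega, by rw [mul_add]; omega⟩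
  have j3 : f < j := by
    by_contra a
    have := Nat.mul_le_mul_left (4 * (m + 1)) (show j + 1 ≤ f + 1 by omega)
    omega
  obtain ⟨F, hF⟩ := hf j r V s h2 j1 (fun w w' v a b => by
    rw [h3 w w' v a b, ← Subtype.val_inj, ev_y, ev_y]) v
  obtain ⟨B, b1, b2⟩ := ball_card hH 15 h1 v (C * r)
  have b3 := Finset.card_le_card_of_injOn (s := Finset.univ) (t := B) F (fun c _ => b2 _ (by
    have := (edist_le_ediam (u := v) (v := F c)).trans (not_lt.1 hc)
    rw [← (hH v (F c)).coe_dist_eq_edist] at this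
    exact_mod_cast this)) hF.injOn
  rw [Finset.card_univ, Fintype.card_fun, card_P, Fintype.card_fin] at b3
  have b4 := Nat.pow_lt_pow_left h0 (n := j) (by omega)
  rw [← pow_mul, ← pow_mul] at b4
  have b5 := (Nat.pow_lt_pow_iff_right (by norm_num)).1 (b4.trans_le (b3.trans b1))
  have b6 : r ≤ 8 * ((m + 1) * j) := by nlinarith
  nlinarith [Nat.mul_le_mul_left C b6]

end Pool.Agent.H.MP_fed0c4_co
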