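import Mathlib
import Pool.Agent.H.MP_fed0c4_co.C

set_option autoImplicit false

namespace Pool.Agent.H.MP_fed0c4_co

lemma sb_vt {V : Type} {G : SimpleGraph V} (a : G.Connected) (b : VT G) (v o : V) (r : ℕ) :
    SameBall G v G o r := by
  obtain ⟨φ, hφ⟩ := b v o
  exact hφ ▸ sb_iso a φ v r

theorem main2 (C : ℕ) : ∃ r, 1 ≤ r ∧ ∀ (n : ℕ) (H : SimpleGraph (Fin n)), H.Connected → VT H →
    ∀ o v, SameBall (Cay (y ℤ)) o H v r → C * r < H.diam := by
  obtain ⟨r0, h⟩ := main C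
  refine ⟨r0 + 1, by omega, fun n H a b o v c => ?_⟩
  have h1 := h (r0 + 1) (by omega) _ H a fun u => (sb_vt a b u v _).trans
    (c.symm.trans (sb_vt (conn good (gen _)) (vt good) _ _ _))
  have := a.nonempty
  rw [← ENat.coe_toNat (SimpleGraph.connected_iff_ediam_ne_top.1 a)] at h1
  exact_mod_cast h1

end Pool.Agent.H.MP_fed0c4_co
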